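import Pool.Agent.TH145.GE.CurveLin

/-!
MP_70ba79_ag, Q1: affine curves in generic log complete intersections.

Let `K` be an algebraically closed field of characteristic `0`, and let `k` be a field contained in
`K`, with algebraic closure `k'` in `K`. Let `V` be a closed subset of projective space of dimension
`n`, defined over `k'`, of dimension at most `m`. For `a` in a finite set `A`, let `F_a` be a generic
member of a linear system over `k'` of forms of degree `d_a`, spanned by the forms `P_{a,j}`: the
ratios of the coefficients `t_{a,j}` of `F_a` to one of them are, for all `a` together,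
algebraically independent over `k`. Let `Z` be a set of indices `c` such that each of the linear
systems contains the monomials `x_c ^ (d_a - e) x_i ^ e` for all `i` and `e`.

Let `C` be a subset of `A`, let `X'` be the intersection of `V` and the hypersurfaces `F_a = 0` with
`a` in `C`, and let `D` be the union of the hypersurfaces `F_a = 0` with `a` not in `C`. Let `f` be a
non-constant morphism from a smooth projective curve of genus `g` over `K` to `X'`, whose image is
not contained in `D` or in the linear subspace `x_c = 0` (`c` in `Z`), and let `S` be a finite set of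
points of the curve with `f ^ (-1) (D) ⊆ S`. Then
`(∑ d_a + |C| - 2 m) deg f ≤ 2 g - 2 + |S|`.

The curve is given by its function field `L`, of transcendence degree one over `K`; `Place K L` is
the set of its points (the normalised discrete valuations of `L` trivial on `K`), and the morphism
by its homogeneous coordinates `x`. For a point `P`, `pord P x` is the minimum of the orders at `P`
of the nonzero coordinates; `pht K x` is minus the sum of these numbers, the degree of `f`. The
number `canDeg K L` is `2 g - 2`: it is minus the sum over the points `P` of the orders of `δ (t_P)`,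
where `t_P` is a uniformizer at `P`, for any nonzero derivation `δ` of `L` over `K`.
-/

set_option autoImplicit false

namespace Pool.Agent.Results.MP_70ba79_ag.GenericLogCurves

open MvPolynomial FF Pool.Agent.W603.LV Pool.Agent.W603.PV Pool.Agent.TH145.MG

theorem result {k K : Type} [Field k] [Field K] [IsAlgClosed K] [CharZero K] [Algebra k K]
    {n m : ℕ}
    -- a closed subset of projective space, of dimension at most `m`
    (V : Set (MvPolynomial (Fin (n + 1)) (algebraicClosure k K)))
    (hVh : ∀ f ∈ V, ∃ e, f.IsHomogeneous e) (hV : DimLE (algebraicClosure k K) V m)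
    -- linear systems of forms of degrees `d a`
    {A : Type} [Fintype A] (d : A → ℕ) {J : A → Type} [∀ a, Fintype (J a)]
    (P : ∀ a, J a → MvPolynomial (Fin (n + 1)) (algebraicClosure k K))
    (hP : ∀ a j, (P a j).IsHomogeneous (d a))
    -- the coefficients; their ratios are algebraically independent over `k`
    (t : ∀ a, J a → K) (j0 : ∀ a, J a) (h0 : ∀ a, t a (j0 a) ≠ 0)
    (hgen : AlgebraicIndependent k fun p : (a : A) × {j : J a // j ≠ j0 a} =>
      t p.1 p.2.1 / t p.1 (j0 p.1))
    -- the forms
    (F : A → MvPolynomial (Fin (n + 1)) K)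
    (hF : ∀ a, F a = ∑ j, MvPolynomial.C (t a j) * map (algebraMap (algebraicClosure k K) K) (P a j))
    -- the linear systems contain monomials in two variables
    (Z : Set (Fin (n + 1)))
    (hZ : ∀ c ∈ Z, ∀ (a : A) (i : Fin (n + 1)) (e : ℕ), e ≤ d a →
      ∃ j, P a j = X c ^ (d a - e) * X i ^ e)
    -- a smooth projective curve, given by its function field
    {L : Type} [Field L] [Algebra K L] [IsFF K L]
    -- a non-constant morphism, given by homogeneous coordinates
    (x : Fin (n + 1) → L) (hxZ : ∃ c ∈ Z, x c ≠ 0)
    (hx : ∃ i j, x j ≠ 0 ∧ x i / x j ∉ Set.range (algebraMap K L))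
    (hxV : ∀ f ∈ V, aeval x (map (algebraMap (algebraicClosure k K) K) f) = 0)
    (C : Finset A) (hxC : ∀ a ∈ C, aeval x (F a) = 0) (hxD : ∀ a, a ∉ C → aeval x (F a) ≠ 0)
    -- the points that are mapped to a hypersurface `F a = 0` with `a` not in `C` are in `S`
    (S : Finset (Place K L))
    (hS : ∀ Q : Place K L, ∀ a, a ∉ C → d a * pord Q x < Q.ord (aeval x (F a)) → Q ∈ S) :
    (∀ δ : Derivation K L L, δ ≠ 0 → canDeg K L = - ∑ᶠ Q : Place K L, Q.ord (δ Q.surj.choose)) ∧
    (((∑ a, d a : ℕ) : ℤ) + C.card - 2 * m) * pht K x ≤ canDeg K L + S.card := by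
  classical
  refine ⟨fun δ hδ => canDeg_eq hδ, ?_⟩
  obtain ⟨c, hcZ, hc⟩ := hxZ
  have hind : AlgebraicIndependent (algebraicClosure k K)
      fun p : (a : A) × {j : J a // j ≠ j0 a} => t p.1 p.2.1 / t p.1 (j0 p.1) :=
    hgen.algebraicClosure
  have h1 := Pool.Agent.TH145.GE.curve_lin V hVh hV P hP t j0 h0 hind c (fun a I hI => by
    obtain ⟨i, e, he, rfl⟩ := hI
    obtain ⟨j, hj⟩ := hZ c hcZ a i e he
    refine ⟨j, ?_⟩
    rw [hj, Pool.Agent.TH145.GD.sM, X_pow_eq_monomial, X_pow_eq_monomial, monomial_mul, one_mul])
    hF C x hc hx hxV hxC hxD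
  have h2 : {Q : Place K L | ∃ a, a ∉ C ∧ d a * pord Q x < Q.ord (aeval x (F a))} ⊆
      (S : Set (Place K L)) := by
    rintro Q ⟨a, ha, h⟩
    exact hS Q a ha h
  have h3 := Set.ncard_le_ncard h2 S.finite_toSet
  rw [Set.ncard_coe_finset] at h3
  exact h1.trans (add_le_add le_rfl (by exact_mod_cast h3))

end Pool.Agent.Results.MP_70ba79_ag.GenericLogCurves
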