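import Mathlib
import Pool.Agent.TH710.NU.Affine

/-!
The degrees of curves in quasi-projective varieties given by nested sums of few high powers of
linear forms, and log general type, over algebraically closed fields of characteristic zero.
-/

set_option autoImplicit false

namespace Pool.Agent.Results.MP_70ba79_ag.NestedCurves

open FF MvPolynomial Pool.Agent.W603.GW Pool.Agent.W603.GX Pool.Agent.W603.GY
  Pool.Agent.W602.GT Pool.Agent.W603.LV Pool.Agent.W603.PV Pool.Agent.TH710.NU
  Pool.Agent.TH710.ND

/-- Let `k` be an algebraically closed field of characteristic zero, and let `X` be the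
quasi-projective variety `F i = 0`, `Q j ≠ 0` over `k`, where the `F i` and the finitely many `Q j`
are nested sums of few high powers of linear forms. First part: for every set `A` of polynomials,
with the set `Δ` of its zeros, the following are equivalent: the degrees of the maps `f : C → X`
from curves `C`, with image not in `Δ`, are at most `B max (2 g - 2 + |S|, 0)`; they are at most
`β (2 g - 2 + |S|)` for a function `β`; they are bounded for every curve `C`; they are bounded for
the maps from the multiplicative group; all lines which meet the complement of `X` in at most two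
points, in the given way, lie in `Δ`. Second part: the same for the maps to an irreducible
component `V` of `X`, outside some proper closed subset of `V`, and these hold if `V` is of log
general type. Third part: if the exponents are large, then they hold if and only if `V` is of log
general type. -/
theorem result {k : Type} [Field k] [IsAlgClosed k] [CharZero k] {n : ℕ} {ι κ : Type} [Finite κ]
    (F : ι → MvPolynomial (Fin (n + 1)) k) (Q : κ → MvPolynomial (Fin (n + 1)) k)
    (hF : ∀ i, Tower (F i)) (hQ : ∀ j, ∃ d, TowerLog (Q j) d) :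
    -- modulo a closed subset
    (∀ A : Set (MvPolynomial (Fin (n + 1)) k),
      [∃ B : ℕ, ∀ (L : Type) [Field L] [Algebra k L] [IsFF k L] (S : Finset (Place k L))
          (f : Fin (n + 1) → L), IsMapX F Q S f → (∃ G ∈ A, aeval f G ≠ 0) →
            pht k f ≤ B * max (canDeg k L + S.card) 0,
        ∃ β : ℤ → ℤ, ∀ (L : Type) [Field L] [Algebra k L] [IsFF k L] (S : Finset (Place k L))
          (f : Fin (n + 1) → L), IsMapX F Q S f → (∃ G ∈ A, aeval f G ≠ 0) →
            pht k f ≤ β (canDeg k L + S.card),
        ∀ (L : Type) [Field L] [Algebra k L] [IsFF k L] (S : Finset (Place k L)), ∃ B : ℤ,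
          ∀ f : Fin (n + 1) → L, IsMapX F Q S f → (∃ G ∈ A, aeval f G ≠ 0) → pht k f ≤ B,
        ∃ B : ℤ, ∀ f : Fin (n + 1) → RatFunc k, IsMapX F Q (zeroInf k) f →
          (∃ G ∈ A, aeval f G ≠ 0) → pht k f ≤ B,
        ∀ x ∈ PtsQ F Q, PunctX F Q x → ∀ G ∈ A, val x G = 0].TFAE) ∧
    ∀ (K : Type) [Field K] [Algebra k K] (w : ℕ) (y : Fin (n + 1) → K),
      SubVarQ F Q K w y → IsComponentQ F Q y →
      -- the components
      [LinBound y Q, EulerBound y Q, EachBound y Q, GmBound y Q,
        ∃ G : MvPolynomial (Fin (n + 1)) k, IsForm G ∧ val y G ≠ 0 ∧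
          ∀ x ∈ VarPts k y, x ∈ PtsQ F Q → PunctX F Q x → val x G = 0].TFAE ∧
      (LogGeneralType k K w (OffAny Q y) → LinBound y Q) ∧
      -- large exponents
      ∀ s N h : ℕ, (∀ i, IsNested s N h (F i)) → (∀ j, IsNested s N h (Q j)) →
        (n + 1) * ((h + 1) * (2 * s + 1) ^ 5) ≤ N →
        [LogGeneralType k K w (OffAny Q y), LinBound y Q, EulerBound y Q, EachBound y Q,
          GmBound y Q].TFAE := by
  refine ⟨fun A => mod_tfae_k hF hQ A, fun K _ _ w y hy hcomp => ?_⟩
  have h1 := comp_bounds hF hQ hy hcomp
  refine ⟨h1, lin_of_lgt hF hQ hy hcomp, fun s N h hF' hQ' hN => ?_⟩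
  tfae_have 1 → 2 := lin_of_lgt hF hQ hy hcomp
  tfae_have 2 ↔ 3 := h1.out 0 1
  tfae_have 2 ↔ 4 := h1.out 0 2
  tfae_have 2 ↔ 5 := h1.out 0 3
  tfae_have 5 → 1 := lgt_of_gm hF' hQ' hN (fun j => by
    obtain ⟨d, hd⟩ := hQ j
    exact ⟨d, hd.hom⟩) hy hcomp
  tfae_finish

end Pool.Agent.Results.MP_70ba79_ag.NestedCurves
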