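import Pool.Agent.TH152.DS.Affine

/-!
The Lang-Vojta degree bound for curves in quasi-projective varieties with a morphism to a projective
space, generically finite onto the image, which is highly ramified over a hyperplane arrangement
which is not reducible.
-/

set_option autoImplicit false

namespace Pool.Agent.Results.MP_70ba79_ag.RamifiedVarieties

open Pool.Agent.W602.Cov Pool.Agent.W602.Cov.R Pool.Agent.W602.GT Pool.Agent.TH152.HY
open Pool.Agent.TH152.DS MvPolynomial

/-- Let `n ≥ 1`. There is a number `R₀ > 0`, which depends only on `n` and `q`, with the following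
property. Let `ℓ i = 0` be `q` hyperplanes in `P^n` which form an arrangement which is not
reducible, and let `n (n + 1) (n + 2) / 2 < m`. Let `X`, `D` be closed subsets of `P^N × P^n`, `X`
irreducible of dimension `d > 0`, with function field `K` and generic point `(a, b)`, and not
contained in `D`. Assume that the projection of `X` to `P^n` is generically finite onto its image,
that the image is not contained in the exceptional set of the arrangement, and that the projection
of `X - D` is ramified to order at least `m` over the arrangement. Then `X - D` is of log general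
type, and there are a proper closed subset `G = 0` of `X - D` and a number `R > 0` such that for
every smooth curve `C` of genus `g` with `s` points at infinity and every nonconstant morphism `f`
from `C` to `X - D` whose image is not contained in `G = 0`

`deg f^* O(0, 1) ≤ R₀ (2 g - 2 + s)` and `deg f^* O(1, 1) ≤ R (2 g - 2 + s)`. -/
theorem result (n q : ℕ) (hn : 1 ≤ n) : ∃ R₀ : ℕ, 0 < R₀ ∧
    ∀ (ℓ : Fin q → Form n) (m : ℕ), ¬ Reducible ℓ → n * (n + 1) * (n + 2) < 2 * m →
    ∀ (N d : ℕ) (X D : BiSet N n) (K : Type) [Field K] [Algebra ℂ K] (a : Fin (N + 1) → K)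
      (b : Fin (n + 1) → K), RamifiedOff X D ℓ m → X.FunctionField K a b → ¬ D.Mem a b →
    Algebra.trdeg ℂ K = d → 0 < d →
    Algebra.IsAlgebraic
      (IntermediateField.adjoin ℂ {f : K | ∃ i j, b j ≠ 0 ∧ f = b i / b j}) K →
    ¬ Exc ℓ b →
    LogGeneralType ℂ K d (CentreIn D a b) ∧
    ∃ (G : BiPoly N n) (E E' : ℕ), BiHom G E E' ∧
      (∃ u v, QMem X D u v ∧ eval (Sum.elim u v) G ≠ 0) ∧
      ∃ R : ℕ, 0 < R ∧ CurvesBounded X D G R₀ R := by
  obtain ⟨R₀, hR₀, h⟩ := affine_bound n q hn
  exact ⟨R₀, hR₀, fun _ _ hr hm _ _ _ _ _ _ _ _ _ hram hK hD htr hd halg hE =>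
    h hr hm hram hK halg htr hd hE hD⟩

end Pool.Agent.Results.MP_70ba79_ag.RamifiedVarieties
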