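import Pool.Agent.W603.LV.Crit

/-!
# MP_70ba79_ag: the Lang-Vojta degree bound from rigid systems of generalised unit equations

`X` is any affine variety over an algebraically closed field of characteristic zero: its coordinate
ring `A` is a domain generated by finitely many elements `x 0, …, x (n - 1)`.  Suppose that on `X`
there are regular functions `φ` and invertible regular functions `ψ` satisfying finitely many
relations `∑ ψ i a * φ i a ^ N i = 0`, with `s i` terms and `N i ≥ (s i - 1) ^ 2`, and that these
relations are rigid: whenever the terms of each relation are partitioned into blocks with sum zero,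
the function field of `X` is algebraic over the field generated by the ratios of the terms in the
same block.  Then the Lang-Vojta bound holds for `X`, with a linear function of the Euler
characteristic, outside a proper closed subset.

A morphism from an affine curve, with function field `K` and set of places at infinity `S`, to `X`
is a homomorphism `θ : A → K` whose values are regular at the places outside `S`.  Function fields
of one variable, places and canonical degrees are in `FF`, the degree of a map and the Euler
characteristic `2 g - 2 + |S|` in `Pool/Agent/W603/LV/Defs.lean`, rigidity in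
`Pool/Agent/W603/LV/CritDefs.lean`.
-/

set_option autoImplicit false

namespace Pool.Agent.Results.MP_70ba79_ag.RigidUnitEquations

open FF Pool.Agent.W603.LV

universe u v w z

/-- Let `X` be an affine variety over the algebraically closed field `k` of characteristic zero,
with coordinate ring `A` generated by `x 0, …, x (n - 1)`, and let `φ i a`, `ψ i a`, `a < s i`, be
elements of `A`, for finitely many `i`, such that the `ψ i a` are units,
`∑ a, ψ i a * φ i a ^ N i = 0` and `N i ≥ max 1 ((s i - 1) ^ 2)`.  If the terms
`ψ i a * φ i a ^ N i` are rigid, there are a proper closed subset `g = 0` of `X` and a `B` such that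
for every affine curve over `k`, given by its function field `K` and its set `S` of places at
infinity, and every nonconstant morphism `θ` from it to `X` whose image is not in `g = 0` the
degree of `θ` is at most `B` times the Euler characteristic `2 g - 2 + |S|`. -/
theorem result {k : Type u} [Field k] [IsAlgClosed k] [CharZero k] {A : Type v} [CommRing A]
    [IsDomain A] [Algebra k A] {I : Type z} [Finite I] {s : I → ℕ} (N : I → ℕ)
    (ψ φ : (i : I) → Fin (s i) → A) (hN0 : ∀ i, 0 < N i) (hN : ∀ i, (s i - 1) ^ 2 ≤ N i)
    (hψ : ∀ i a, IsUnit (ψ i a)) (hrel : ∀ i, ∑ a, ψ i a * φ i a ^ N i = 0)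
    (hrig : Rigid k (fun i a => ψ i a * φ i a ^ N i)) {n : ℕ} (x : Fin n → A)
    (hx : Algebra.adjoin k (Set.range x) = ⊤) :
    ∃ g : A, g ≠ 0 ∧ ∃ B : ℕ, ∀ (K : Type w) [Field K] [Algebra k K] [IsFF k K]
      (S : Finset (Place k K)) (θ : A →ₐ[k] K), (∀ a, ∀ P : Place k K, P ∉ S → 0 ≤ P.ord (θ a)) →
      θ g ≠ 0 → (∃ a, θ a ∉ Set.range (algebraMap k K)) →
        mapDeg k (fun j => θ (x j)) ≤ B * euler S :=
  criterion N ψ φ hN0 hN hψ hrel hrig x hx

end Pool.Agent.Results.MP_70ba79_ag.RigidUnitEquations
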